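import Mathlib
import Pool.Agent.L7h62.SQ.Stm

/-!
# Project SQ, part LAT: classes modulo squares of a discrete group
-/

set_option autoImplicit false

namespace Pool.Agent.L7h79.SQ

open Module Pool.Agent.L7h62.SQ

theorem s_LAT : S_LAT := by
  intro A _ ι _ l hadd hinj hfin
  -- the homomorphism
  let f : Additive A →+ (ι → ℝ) :=
    { toFun := fun a => l a.toMul
      map_zero' := by
        have h : ∀ i, l 1 i = 0 := by
          intro i
          have := hadd 1 1 i
          rw [mul_one] at this
          linarith
        funext i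
        exact h i
      map_add' := fun a b => by
        funext i
        exact hadd a.toMul b.toMul i }
  let F : Additive A →ₗ[ℤ] (ι → ℝ) := f.toIntLinearMap
  have hF : ∀ a : Additive A, F a = l a.toMul := fun a => rfl
  have hFinj : Function.Injective F := by
    rw [injective_iff_map_eq_zero]
    intro a ha
    rw [hF] at ha
    have := hinj a.toMul (fun i => by rw [ha]; rfl)
    exact this
  let L : Submodule ℤ (ι → ℝ) := LinearMap.range F
  let e : Additive A ≃ₗ[ℤ] L := LinearEquiv.ofInjective F hFinj
  have he : ∀ a : Additive A, ((e a : L) : ι → ℝ) = l a.toMul := fun a => rfl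
  have hdisc : DiscreteTopology L := by
    apply discreteTopology_of_isOpen_singleton_zero
    have hfin1 : {x : L | ‖x‖ ≤ 1}.Finite := by
      have h1 := (hfin 1).image (fun a => e (Additive.ofMul a))
      apply h1.subset
      intro x hx
      obtain ⟨a, rfl⟩ := e.surjective x
      refine ⟨a.toMul, ?_, rfl⟩
      intro i
      have h2 : ‖((e a : L) : ι → ℝ)‖ ≤ 1 := hx
      rw [he] at h2
      have := (pi_norm_le_iff_of_nonneg zero_le_one).1 h2 i
      simpa [Real.norm_eq_abs] using this
    have h3 : ({0} : Set L) = {x : L | ‖x‖ < 1} \ ({x : L | ‖x‖ ≤ 1} \ {0}) := by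
      ext x
      simp only [Set.mem_singleton_iff, Set.mem_sdiff, Set.mem_ofPred_eq, not_and, not_not]
      constructor
      · rintro rfl
        simp
      · rintro ⟨h4, h5⟩
        exact h5 h4.le
    rw [h3]
    apply IsOpen.sdiff
    · exact isOpen_lt continuous_norm continuous_const
    · exact (hfin1.subset Set.sdiff_subset).isClosed
  have hrk : Module.finrank ℤ L ≤ Fintype.card ι := by
    have hs : Submodule.span ℤ (L : Set (ι → ℝ)) = L := Submodule.span_eq L
    have h1 : DiscreteTopology (Submodule.span ℤ (L : Set (ι → ℝ))) := by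
      rw [hs]; exact hdisc
    have h2 := Real.finrank_eq_int_finrank_of_discrete h1
    have h3 : Set.finrank ℤ (L : Set (ι → ℝ)) = Module.finrank ℤ L := by
      rw [Set.finrank, hs]
    have h4 : Set.finrank ℝ (L : Set (ι → ℝ)) ≤ Fintype.card ι := by
      rw [Set.finrank]
      exact (Submodule.finrank_le _).trans (by simp)
    rw [← h3, ← h2]
    exact h4
  let j : (A ⧸ (powMonoidHom 2 : A →* A).range) → ModN L 2 :=
    fun x => ModN.mkQ 2 (e (Additive.ofMul x.out))
  have hj : Function.Injective j := by
    intro x y hxy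
    have h1 : (Submodule.Quotient.mk (e (Additive.ofMul x.out)) :
        L ⧸ LinearMap.range (LinearMap.lsmul ℤ L (2 : ℕ))) =
        Submodule.Quotient.mk (e (Additive.ofMul y.out)) := hxy
    rw [Submodule.Quotient.eq] at h1
    obtain ⟨z, hz⟩ := h1
    obtain ⟨c, rfl⟩ := e.surjective z
    have h2 : e (c + c) = e (Additive.ofMul x.out - Additive.ofMul y.out) := by
      rw [map_sub, ← hz, map_add]
      simp [two_smul]
    have h3 := e.injective h2
    have h4 : y.out⁻¹ * x.out = (c.toMul) ^ 2 := by
      have h5 : (Additive.ofMul x.out - Additive.ofMul y.out).toMul = (c + c).toMul := by rw [h3]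
      rw [toMul_sub, toMul_add, toMul_ofMul, toMul_ofMul] at h5
      rw [pow_two, ← h5, mul_comm, div_eq_mul_inv]
    rw [← QuotientGroup.out_eq' x, ← QuotientGroup.out_eq' y]
    symm
    rw [QuotientGroup.eq]
    exact ⟨c.toMul, h4.symm⟩
  refine ⟨Finite.of_injective j hj, ?_⟩
  calc Nat.card (A ⧸ (powMonoidHom 2 : A →* A).range) ≤ Nat.card (ModN L 2) :=
        Nat.card_le_card_of_injective j hj
    _ = 2 ^ Module.finrank ℤ L := ModN.natCard_eq L 2
    _ ≤ 2 ^ Fintype.card ι := Nat.pow_le_pow_right (by norm_num) hrk

end Pool.Agent.L7h79.SQ
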